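import Pool.Agent.Helper487.ECM.Uniq

open Filter Topology Finset
open scoped PeriodPair

namespace Pool.Agent.Results.MP_0b1044_mp.AnticommutatorForm

/-!
# The elliptic Calogero-Moser operator as a combination of anticommutators of `E_ij`

`L` is a period pair, `℘[L]` its Weierstrass function. With `n = N + 1`, let `b_0 = 1` and
`b_k = ℘^(k-1)`; the new variables are the coefficients of the function
`φ(z) = 1 - ∑ u_k b_k(z)` with zeros `y_1, …, y_N`. The proof computes the operator in the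
variables `u` by means of the kernel
`-Q (φ'(z) φ(w) - φ(z) φ'(w)) - φ'(z) φ'(w) / n + (n - 1) (℘(z) + ℘(w)) φ(z) φ(w) / 2
 + (φ''(z) φ(w) + φ(z) φ''(w)) / (2 n)`, `Q = (℘'(z) + ℘'(w)) / (2 (℘(z) - ℘(w)))`,
which is a combination `∑ R_{abkl} û_a û_b b_k(z) b_l(w)`, and by the trace identity
`∑_m (R_{mbmk} + R_{bmmk}) = τ δ_{bk}`. The coefficients of the anticommutators
`{E_ij, E_kl}` are `-R_{ikjl} / 2` up to signs, plus a multiple of `δ_ij δ_kl`.
-/

/-- The derivative `∂f/∂y_i` of a function on `ℂ^N`. -/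
noncomputable def pd {N : ℕ} (i : Fin N) (f : (Fin N → ℂ) → ℂ) (y : Fin N → ℂ) : ℂ :=
  fderiv ℂ f y (Pi.single i 1)

/-- The `N + 1` coordinates `y_1, …, y_N, y_{N+1}`, where `y_{N+1} = -(y_1 + … + y_N)`. -/
noncomputable def allCoords {N : ℕ} (y : Fin N → ℂ) : Fin (N + 1) → ℂ := Fin.snoc y (-∑ i, y i)

/-- The matrix with `i`-th row `(℘(y_i), ℘'(y_i), …, ℘^(N-1)(y_i))`. -/
noncomputable def wMatrix (L : PeriodPair) {N : ℕ} (y : Fin N → ℂ) : Matrix (Fin N) (Fin N) ℂ :=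
  Matrix.of fun i k => iteratedDeriv (k : ℕ) ℘[L] (y i)

/-- The new variables `u(y)`: the solution of the linear system `wMatrix y · u = (1, …, 1)`. -/
noncomputable def uMap (L : PeriodPair) {N : ℕ} (y : Fin N → ℂ) : Fin N → ℂ :=
  (wMatrix L y)⁻¹.mulVec 1

/-- The Jacobian `D_N(y) = det (∂u_a/∂y_i)` of the map `y ↦ u`. -/
noncomputable def jacobian (L : PeriodPair) {N : ℕ} (y : Fin N → ℂ) : ℂ :=
  (Matrix.of fun a i : Fin N => pd i (fun y => uMap L y a) y).det

/-- The sum of `℘(y_i - y_j)` over the ordered pairs of distinct `i, j ≤ N + 1`. -/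
noncomputable def pairSum (L : PeriodPair) {N : ℕ} (y : Fin N → ℂ) : ℂ :=
  ∑ i : Fin (N + 1), ∑ j ∈ univ.erase i, ℘[L] (allCoords y i - allCoords y j)

/-- The elliptic Calogero-Moser operator `H_N` with parameter `β`. -/
noncomputable def hamiltonian (L : PeriodPair) {N : ℕ} (β : ℂ) (f : (Fin N → ℂ) → ℂ)
    (y : Fin N → ℂ) : ℂ :=
  -((N : ℂ) / (N + 1)) * ∑ i, pd i (pd i f) y
    + (1 / ((N : ℂ) + 1)) * ∑ i, ∑ j ∈ univ.erase i, pd i (pd j f) y
    + β * (β - 1) * pairSum L y * f y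

/-- `E` is, near the point `y`, a branch of the power `D_N ^ γ` of the Jacobian:
`E = exp (γ l)` with `l` an analytic logarithm of the Jacobian near `y`. -/
def IsPowerOfJacobian (L : PeriodPair) {N : ℕ} (γ : ℂ) (E : (Fin N → ℂ) → ℂ) (y : Fin N → ℂ) :
    Prop :=
  ∃ l : (Fin N → ℂ) → ℂ, AnalyticAt ℂ l y ∧
    ∀ᶠ y' in 𝓝 y, Complex.exp (l y') = jacobian L y' ∧ E y' = Complex.exp (γ * l y')

/-- The points where all the data are defined: `y_i ∉ Λ` for `i ≤ N`, the linear system for `u`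
is nondegenerate, the Jacobian is nonzero, and `y_i - y_j ∉ Λ` for distinct `i, j ≤ N + 1`. -/
def domain (L : PeriodPair) (N : ℕ) : Set (Fin N → ℂ) :=
  {y | (∀ i, y i ∉ L.lattice) ∧ (wMatrix L y).det ≠ 0 ∧ jacobian L y ≠ 0 ∧
    ∀ i j : Fin (N + 1), i ≠ j → allCoords y i - allCoords y j ∉ L.lattice}

/-- The operator `E_00 = -∑ u_j ∂/∂u_j + κ`, acting on functions of `u = (u_1, …, u_N)`. -/
noncomputable def E00 {N : ℕ} (κ : ℂ) (F : (Fin N → ℂ) → ℂ) (u : Fin N → ℂ) : ℂ :=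
  -∑ j, u j * pd j F u + κ * F u

/-- The operators `E_ij`, `0 ≤ i, j ≤ N`: the product of the `i`-th entry of `(1, u_1, …, u_N)`
and the `j`-th entry of `(E_00, ∂/∂u_1, …, ∂/∂u_N)`. So `E_ij = u_i ∂/∂u_j`, `E_0j = ∂/∂u_j`,
`E_i0 = u_i E_00` for `i, j ≥ 1`. -/
noncomputable def generator {N : ℕ} (κ : ℂ) (i j : Fin (N + 1)) (F : (Fin N → ℂ) → ℂ)
    (u : Fin N → ℂ) : ℂ :=
  (Fin.cons 1 u : Fin (N + 1) → ℂ) i *
    (Fin.cons (E00 κ F u) (fun j => pd j F u) : Fin (N + 1) → ℂ) j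

/-- For every constant `κ` these operators satisfy the relations of `gl_{N+1}`:
`[E_ij, E_kl] = δ_jk E_il - δ_il E_kj`. -/
theorem generator_commutator {N : ℕ} (κ : ℂ) (i j k l : Fin (N + 1)) {F : (Fin N → ℂ) → ℂ}
    {u : Fin N → ℂ} (hF : AnalyticAt ℂ F u) :
    generator κ i j (generator κ k l F) u - generator κ k l (generator κ i j F) u =
      (if j = k then generator κ i l F u else 0) - (if i = l then generator κ k j F u else 0) :=
  Helper487.ECM.gen_comm κ i j k l hF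

/-- The anticommutator `{E_ij, E_kl} = E_ij E_kl + E_kl E_ij`. -/
noncomputable def anticommutator {N : ℕ} (κ : ℂ) (i j k l : Fin (N + 1)) (F : (Fin N → ℂ) → ℂ)
    (u : Fin N → ℂ) : ℂ :=
  generator κ i j (generator κ k l F) u + generator κ k l (generator κ i j F) u

/-- The operator `D_N ^ (-γ) H_N D_N ^ γ`, rewritten in the variables `u`, is a linear
combination with constant coefficients of the anticommutators `{E_ij, E_kl}`,
where `E_00 = -∑ u_j ∂/∂u_j + κ`. -/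
def HasAnticommutatorForm (L : PeriodPair) (N : ℕ) (β γ κ : ℂ) : Prop :=
  ∃ lam : Fin (N + 1) → Fin (N + 1) → Fin (N + 1) → Fin (N + 1) → ℂ,
    ∀ y ∈ domain L N, ∀ E, IsPowerOfJacobian L γ E y →
    ∀ F : (Fin N → ℂ) → ℂ, AnalyticAt ℂ F (uMap L y) →
      (E y)⁻¹ * hamiltonian L β (fun y' => E y' * F (uMap L y')) y =
        ∑ i, ∑ j, ∑ k, ∑ l, lam i j k l * anticommutator κ i j k l F (uMap L y)

/-- For every `N`: (1) if `γ (γ - 1) = β (β - 1)`, that is `γ = β` or `γ = 1 - β`, then the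
operator `D_N ^ (-γ) H_N D_N ^ γ` in the variables `u` is a linear combination of the
anticommutators `{E_ij, E_kl}` with `E_00 = -∑ u_j ∂/∂u_j - γ (N + 1)`. (2) For other exponents
`γ` it is not, whatever the constant `κ` in `E_00 = -∑ u_j ∂/∂u_j + κ` is. (3) If `g₃ ≠ 0`, the
constant in `E_00` has to be `-γ (N + 1)`. -/
theorem result (L : PeriodPair) (N : ℕ) (hN : 1 ≤ N) (β γ : ℂ) :
    (γ * (γ - 1) = β * (β - 1) → HasAnticommutatorForm L N β γ (-(γ * ((N : ℂ) + 1)))) ∧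
    (∀ κ, HasAnticommutatorForm L N β γ κ → γ * (γ - 1) = β * (β - 1)) ∧
    (L.g₃ ≠ 0 → ∀ κ, HasAnticommutatorForm L N β γ κ → κ = -(γ * ((N : ℂ) + 1))) := by
  refine ⟨fun h => ?_, fun κ h => ?_, fun hg κ h => ?_⟩
  · exact Helper487.ECM.anti_form L hN β γ h
  · exact Helper487.ECM.anti_only_if (L := L) hN β γ κ h
  · exact Helper487.ECM.anti_unique (L := L) hN β γ κ hg h

end Pool.Agent.Results.MP_0b1044_mp.AnticommutatorForm
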